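import Pool.Agent.W413.MC.Final

/-!
# Mazur's dimension conjecture `dim R/pR = h¹ - h²` fails (MP_cd44e0_nt)

`K = ℚ(√5)`, `p = 2`, `n = 3`, `S` the places above `2, 3, 5, ∞`, `k` a finite field of
characteristic 2 and `ρbar : G_{K,S} → GL_3(k)` continuous and absolutely irreducible: the universal
deformation ring `R` has `dim R/2R ≥ 2`, whereas `h¹(G_{K,S}, ad) ≤ h²(G_{K,S}, ad) + 1`.
-/

set_option autoImplicit false

namespace Pool.Agent.Results.MP_cd44e0_nt.MazurEqualityFails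

open NumberField IsDedekindDomain

theorem result :
    (∃ (K Ω : Type) (_ : Field K) (_ : NumberField K) (_ : Field Ω) (_ : Algebra K Ω)
      (_ : IsAlgClosure K Ω) (S : Set (HeightOneSpectrum (𝓞 K)))
      (k : Type) (_ : Field k) (_ : Finite k) (_ : CharP k 2)
      (ρbar : MZ.GFS Ω S →* GL (Fin 3) k),
      (∃ s : K, s ^ 2 = 5 ∧ IntermediateField.adjoin ℚ {s} = ⊤) ∧
      MC.IsDatumH K Ω S 2 k 3 ρbar ∧ MC.DimGe ρbar ∧ MC.CohLe ρbar) ∧
    ¬ MC.MazurH :=
  ⟨MC.counterexampleH, MC.not_mazurH MC.counterexampleH⟩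

end Pool.Agent.Results.MP_cd44e0_nt.MazurEqualityFails
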